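import Pool.Agent.H242R3.ES.StmtsK

/-! Project H242-ES: `TaskK6`. -/

set_option autoImplicit false
set_option maxHeartbeats 4000000

open Finset
open scoped Classical

namespace Pool.Agent.H769R3.ES.K6

open Pool.Agent.H242R3.ES

theorem B_comm {D : ℕ} (x y : LV D) : B x y = B y x := by
  simp only [B, mul_comm]

theorem B_add {D : ℕ} (x y z : LV D) : B x (y + z) = B x y + B x z := by
  simp only [B, Pi.add_apply, mul_add, Finset.sum_add_distrib]
  ring

theorem rk_single {ι : Type} [Fintype ι] {V : ι → LV 3} (hV : GQ 3 V) (i : ι) : rk V {i} = 1 := by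
  have h0 : V i ≠ 0 := by
    intro h
    have := hV.norm i
    rw [h] at this
    simp [B] at this
  rw [rk, Set.image_singleton]
  exact finrank_span_singleton h0

theorem k6 (hG3 : TaskG3) (hG4 : TaskG4) (hEB : EdgeB) (hNS : NSum) (hRV : RV) (hRN : RN)
    (ι : Type) [Fintype ι] (V : ι → LV 3) (hV : GQ 3 V) (N : Set ι → LV 3) (hN : NrmP V N) :
    DP V (fun F : {F : Set ι // Fc V F} => N F) (fun e : {e : Set ι // Ed V e} => SY V e) ∧
    ∀ F e, Fc V F → Ed V e → (B (N F) (SY V e) = 0 ↔ e ⊆ F) := by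
  obtain ⟨E1, E2, E3, E4, E5⟩ := hEB ι V hV
  have key : ∀ F e, Fc V F → Ed V e → B (N F) (SY V e) ≤ 0 ∧ (B (N F) (SY V e) = 0 ↔ e ⊆ F) := by
    intro F e hF he
    obtain ⟨i, j, hij, rfl, -⟩ := (E1 e).1 he
    rw [E2 i j hij, B_add, B_comm (N F) (V i), B_comm (N F) (V j)]
    have h1 := (hN F hF).2 i
    have h2 := (hN F hF).2 j
    refine ⟨by linarith [h1.1, h2.1], ?_⟩
    rw [Set.insert_subset_iff, Set.singleton_subset_iff, ← h1.2, ← h2.2]
    constructor
    · intro h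
      constructor
      · linarith [h1.1, h2.1]
      · linarith [h1.1, h2.1]
    · rintro ⟨h3, h4⟩
      rw [h3, h4, add_zero]
  refine ⟨⟨hV.norm, fun F => (hN F.1 F.2).1, fun e => (E3 e.1 e.2).1, ?_, ?_, ?_, ?_, ?_, ?_, ?_, ?_, ?_⟩,
    fun F e hF he => (key F e hF he).2⟩
  · intro e f hef
    exact E4 e.1 f.1 e.2 f.2 (fun h => hef (Subtype.ext h))
  · intro i F
    exact ((hN F.1 F.2).2 i).1
  · intro i e
    exact ((E3 e.1 e.2).2 i).1
  · intro F e
    exact (key F.1 e.1 F.2 e.2).1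
  · rintro ⟨e, he⟩
    obtain ⟨i, j, hij, rfl, -⟩ := (E1 e).1 he
    refine ⟨i, j, hij, fun k => ?_, 1, one_pos, ?_⟩
    · rw [((E3 _ he).2 k).2]
      simp
    · rw [one_smul]
      exact (E2 i j hij).symm
  · rintro ⟨e, he⟩
    obtain ⟨F, G, hF, hG, hFG, heFG, hall⟩ := E5 e he
    refine ⟨⟨F, hF⟩, ⟨G, hG⟩, fun h => hFG (Subtype.ext_iff.1 h), ?_, ?_⟩
    · rintro ⟨H, hH⟩
      show B (N H) (SY V e) = 0 ↔ _
      rw [(key H e hH he).2, Subtype.mk_eq_mk, Subtype.mk_eq_mk]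
      constructor
      · exact hall H hH
      · rintro (rfl | rfl)
        · rw [heFG]; exact Set.inter_subset_left
        · rw [heFG]; exact Set.inter_subset_right
    · obtain ⟨c, hc, hcc⟩ := hNS ι V hV N hN F G hF hG hFG (heFG ▸ he)
      refine ⟨c, hc, ?_⟩
      show N F + N G = c • SY V e
      rw [hcc, ← heFG]
  · rintro i ⟨F, hF⟩ hiF
    have hiF' : i ∈ F := ((hN F hF).2 i).2.1 hiF
    have hss : ({i} : Set ι) ⊂ F := by
      refine ⟨Set.singleton_subset_iff.2 hiF', fun h => ?_⟩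
      have h1 : F = {i} := Set.Subset.antisymm h (Set.singleton_subset_iff.2 hiF')
      have h2 := hF.2
      rw [h1, rk_single hV] at h2
      omega
    obtain ⟨⟨T, hTF, hT⟩, -⟩ := hG3 ι (LV 3) V {i} F (hV.vert i) hF.1 hss
    obtain ⟨T', ⟨⟨hT', hT'F⟩, hne⟩, huniq⟩ := hG4 ι (LV 3) V {i} F (hV.vert i) hF.1 hss
      (by rw [hF.2, rk_single hV]) T hT hTF
    have hEd : ∀ S, Cov V {i} S → Ed V S := fun S hS => ⟨hS.2.1, by rw [hS.2.2.2, rk_single hV]⟩
    refine ⟨⟨T, hEd T hT⟩, ⟨T', hEd T' hT'⟩, fun h => hne (Subtype.ext_iff.1 h).symm, ?_⟩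
    rintro ⟨g, hg⟩
    show (B (V i) (SY V g) = 0 ∧ B (N F) (SY V g) = 0) ↔ _
    rw [((E3 g hg).2 i).2, (key F g hF hg).2, Subtype.mk_eq_mk, Subtype.mk_eq_mk]
    constructor
    · rintro ⟨hig, hgF⟩
      by_cases h : g = T
      · exact Or.inl h
      · right
        refine huniq g ⟨⟨⟨hV.vert i, hg.1, ⟨Set.singleton_subset_iff.2 hig, fun h1 => ?_⟩, ?_⟩, hgF⟩, h⟩
        · have h2 : g = {i} := Set.Subset.antisymm h1 (Set.singleton_subset_iff.2 hig)
          have h3 := hg.2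
          rw [h2, rk_single hV] at h3
          omega
        · rw [hg.2, rk_single hV]
    · rintro (rfl | rfl)
      · exact ⟨hT.2.2.1.1 rfl, hTF⟩
      · exact ⟨hT'.2.2.1.1 rfl, hT'F⟩
  · intro i y hy he
    obtain ⟨a, ha0, ha1, ha2⟩ := hRV ι V hV N hN i y hy
      (fun e he1 hie => he ⟨e, he1⟩ (((E3 e he1).2 i).2.2 hie))
    refine ⟨fun F => a F.1, fun F => ha0 F.1, fun F hF => ((hN F.1 F.2).2 i).2.2 (ha1 F.1 hF).2, ?_⟩
    rw [ha2]
    have h1 : ∑ F : Set ι, a F • N F = ∑ F ∈ Finset.univ.filter (fun F : Set ι => Fc V F), a F • N F := by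
      symm
      apply Finset.sum_subset (Finset.subset_univ _)
      intro F _ hF
      have h2 : ¬ Fc V F := fun h => hF (Finset.mem_filter.2 ⟨Finset.mem_univ _, h⟩)
      have h3 : a F = 0 := by
        by_contra h
        exact h2 (ha1 F h).1
      rw [h3, zero_smul]
    rw [h1]
    exact Finset.sum_subtype (p := fun F : Set ι => Fc V F) _
      (fun F => by rw [Finset.mem_filter]; exact ⟨fun h => h.2, fun h => ⟨Finset.mem_univ _, h⟩⟩) _
  · rintro ⟨F, hF⟩ y hy he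
    obtain ⟨a, ha0, ha1, ha2⟩ := hRN ι V hV N hN F hF y hy
      (fun e he1 heF => he ⟨e, he1⟩ ((key F e hF he1).2.2 heF))
    exact ⟨a, ha0, fun i hi => ((hN F hF).2 i).2.2 (ha1 i hi), ha2⟩

theorem t : TaskK6 := fun _ hG3 hG4 _ hEB hNS hRV hRN ι _ V hV N hN =>
  k6 hG3 hG4 hEB hNS hRV hRN ι V hV N hN

end Pool.Agent.H769R3.ES.K6
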