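import Pool.Agent.H242R3.ES.StmtsG
import Pool.Agent.SphJam.Farkas

/-! Project H242-ES: `TaskG5`. -/

set_option autoImplicit false
set_option maxHeartbeats 4000000

open Finset
open scoped Classical

namespace Pool.Agent.H769R3.ES

open Pool.Agent.H242R3.ES

theorem g5 (hG1 : TaskG1) (hG3 : TaskG3) {ι E : Type} [Fintype ι] [AddCommGroup E] [Module ℝ E]
    [FiniteDimensional ℝ E] (V : ι → E) (R S : Set ι) (hR : Face V R) (hS : Face V S)
    (hRS : R ⊂ S) (i : ι) (hi : i ∈ S) :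
    ∃ (y : E) (a : ι → ℝ), y ∈ Submodule.span ℝ (V '' R) ∧ (∀ k, 0 ≤ a k) ∧
    (∀ k, a k ≠ 0 → k ∈ S ∧ k ∉ R ∧ ∃ T, Cov V R T ∧ T ⊆ S ∧ k ∈ T) ∧ V i = y + ∑ k, a k • V k := by
  have hRface := hR
  obtain ⟨l, hl0, hl⟩ := hR
  have hpos : ∀ k, k ∉ R → 0 < l (V k) := fun k hk =>
    lt_of_le_of_ne (hl0 k) (fun h => hk ((hl k).2 h.symm))
  set W := Submodule.span ℝ (V '' R) with hW
  have hlW : ∀ y ∈ W, l y = 0 := by
    intro y hy
    have : W ≤ LinearMap.ker l := by
      rw [hW, Submodule.span_le]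
      rintro _ ⟨k, hk, rfl⟩
      exact (hl k).1 hk
    exact this hy
  by_cases hiR : i ∈ R
  · refine ⟨V i, 0, Submodule.subset_span ⟨i, hiR, rfl⟩, fun _ => le_rfl, fun k hk => absurd rfl hk, ?_⟩
    simp
  let K := {k : ι // k ∈ S ∧ k ∉ R ∧ ∃ T, Cov V R T ∧ T ⊆ S ∧ k ∈ T}
  let ev : ι → Module.Dual ℝ (E ⧸ W) →ₗ[ℝ] ℝ := fun k => Module.Dual.eval ℝ (E ⧸ W) (W.mkQ (V k))
  rcases SphJam.farkas_strict (U := Module.Dual ℝ (E ⧸ W)) (K := Option K)
    (fun o => o.elim (ev i) (fun k => - ev k.1)) (fun _ => 0) with ⟨a, ha⟩ | ⟨w, hw0, hw1, hw2, -⟩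
  · exfalso
    let g : E →ₗ[ℝ] ℝ := a.comp W.mkQ
    have hg : ∀ k ∈ R, g (V k) = 0 := by
      intro k hk
      have h1 : V k ∈ W := Submodule.subset_span ⟨k, hk, rfl⟩
      have h2 : W.mkQ (V k) = 0 := by
        rw [Submodule.mkQ_apply]
        exact (Submodule.Quotient.mk_eq_zero W).2 h1
      show a (W.mkQ (V k)) = 0
      rw [h2, map_zero]
    have hgi : g (V i) < 0 := by
      have := ha none
      simpa [ev, g] using this
    have hgk : ∀ k, (hk : k ∈ S ∧ k ∉ R ∧ ∃ T, Cov V R T ∧ T ⊆ S ∧ k ∈ T) → 0 < g (V k) := by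
      intro k hk
      have := ha (some ⟨k, hk⟩)
      simpa [ev, g] using this
    obtain ⟨k0, hk0, hmax⟩ := Finset.exists_max_image (Finset.univ.filter (fun k => k ∈ S ∧ k ∉ R))
      (fun k => -g (V k) / l (V k)) ⟨i, by simp [hiR, hi]⟩
    obtain ⟨-, hk0S, hk0R⟩ := Finset.mem_filter.1 hk0
    have hmax' : ∀ k, k ∈ S → k ∉ R → -g (V k) / l (V k) ≤ -g (V k0) / l (V k0) := fun k hk hk' =>
      hmax k (by simp [hk, hk'])
    set t := -g (V k0) / l (V k0) with ht
    have ht0 : 0 < t := lt_of_lt_of_le (div_pos (by linarith) (hpos i hiR)) (hmax' i hi hiR)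
    have hz : g (V k0) + t * l (V k0) = 0 := by
      rw [ht, div_mul_cancel₀ _ (hpos k0 hk0R).ne']
      ring
    have hT0 : Face V {k | k ∈ S ∧ g (V k) + t * l (V k) = 0} := by
      refine hG1 ι E V S _ hS (fun k hk => hk.1) ⟨g + t • l, ?_, ?_⟩
      · intro j hj
        rw [LinearMap.add_apply, LinearMap.smul_apply, smul_eq_mul]
        by_cases hjR : j ∈ R
        · rw [hg j hjR, (hl j).1 hjR]
          simp
        · have h1 := hmax' j hj hjR
          rw [div_le_iff₀ (hpos j hjR)] at h1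
          linarith
      · intro j hj
        rw [LinearMap.add_apply, LinearMap.smul_apply, smul_eq_mul]
        exact ⟨fun h => h.2, fun h => ⟨hj, h⟩⟩
    have hRT : R ⊂ {k | k ∈ S ∧ g (V k) + t * l (V k) = 0} := by
      refine ⟨fun j hj => ⟨hRS.1 hj, ?_⟩, fun h => hk0R (h ⟨hk0S, hz⟩)⟩
      rw [hg j hj, (hl j).1 hj]
      simp
    obtain ⟨⟨T, hTT, hcov⟩, -⟩ := hG3 ι E V R _ hRface hT0 hRT
    obtain ⟨k, hkT, hkR⟩ := Set.exists_of_ssubset hcov.2.2.1
    have h1 := hgk k ⟨(hTT hkT).1, hkR, T, hcov, fun j hj => (hTT hj).1, hkT⟩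
    have h2 := (hTT hkT).2
    have h3 := mul_pos ht0 (hpos k hkR)
    linarith
  · -- the relation
    have hrel : w none • V i - ∑ k : K, w (some k) • V k.1 ∈ W := by
      rw [← Submodule.Quotient.mk_eq_zero W, ← Submodule.mkQ_apply,
        ← Module.forall_dual_apply_eq_zero_iff ℝ]
      intro a
      have h1 := hw2 a
      rw [Fintype.sum_option] at h1
      simp only [Option.elim_none, Option.elim_some, LinearMap.neg_apply, ev,
        Module.Dual.eval_apply] at h1
      rw [map_sub, map_sub, map_smul, map_smul, map_sum, map_sum, smul_eq_mul]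
      rw [← h1, sub_eq_add_neg, ← Finset.sum_neg_distrib]
      congr 1
      refine Finset.sum_congr rfl (fun k _ => ?_)
      rw [map_smul, map_smul, smul_eq_mul]
      ring
    have hw3 : 0 < w none := by
      refine lt_of_le_of_ne (hw0 none) (fun h0 => ?_)
      have h1 := hlW _ hrel
      rw [← h0, zero_smul, zero_sub, map_neg, map_sum, neg_eq_zero] at h1
      rw [Finset.sum_eq_zero_iff_of_nonneg] at h1
      · obtain ⟨o, ho⟩ := hw1
        cases o with
        | none => exact ho h0.symm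
        | some k =>
          have h2 := h1 k (Finset.mem_univ _)
          rw [map_smul, smul_eq_mul] at h2
          rcases mul_eq_zero.1 h2 with h3 | h3
          · exact ho h3
          · exact (hpos k.1 k.2.2.1).ne' h3
      · intro k _
        rw [map_smul, smul_eq_mul]
        exact mul_nonneg (hw0 _) (hl0 _)
    let a : ι → ℝ := fun k => if h : k ∈ S ∧ k ∉ R ∧ ∃ T, Cov V R T ∧ T ⊆ S ∧ k ∈ T then
      w (some ⟨k, h⟩) / w none else 0
    have hasum : ∑ k, a k • V k = (w none)⁻¹ • ∑ k : K, w (some k) • V k.1 := by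
      rw [Finset.smul_sum]
      have h1 : ∑ k, a k • V k = ∑ k ∈ Finset.univ.filter
          (fun k => k ∈ S ∧ k ∉ R ∧ ∃ T, Cov V R T ∧ T ⊆ S ∧ k ∈ T), a k • V k := by
        symm
        apply Finset.sum_subset (Finset.subset_univ _)
        intro k _ hk
        have : ¬ (k ∈ S ∧ k ∉ R ∧ ∃ T, Cov V R T ∧ T ⊆ S ∧ k ∈ T) := fun h =>
          hk (Finset.mem_filter.2 ⟨Finset.mem_univ _, h⟩)
        simp only [a]
        rw [dif_neg this, zero_smul]
      rw [h1]
      rw [Finset.sum_subtype (p := fun k => k ∈ S ∧ k ∉ R ∧ ∃ T, Cov V R T ∧ T ⊆ S ∧ k ∈ T) _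
        (fun k => by rw [Finset.mem_filter]; exact ⟨fun h => h.2, fun h => ⟨Finset.mem_univ _, h⟩⟩)]
      refine Finset.sum_congr rfl (fun k _ => ?_)
      simp only [a]
      rw [dif_pos k.2, smul_smul]
      congr 1
      rw [div_eq_inv_mul]
    refine ⟨V i - ∑ k, a k • V k, a, ?_, ?_, ?_, ?_⟩
    · rw [hasum]
      have h1 : V i - (w none)⁻¹ • ∑ k : K, w (some k) • V k.1 =
          (w none)⁻¹ • (w none • V i - ∑ k : K, w (some k) • V k.1) := by
        rw [smul_sub, smul_smul, inv_mul_cancel₀ hw3.ne', one_smul]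
      rw [h1]
      exact W.smul_mem _ hrel
    · intro k
      simp only [a]
      split_ifs with h
      · exact div_nonneg (hw0 _) hw3.le
      · exact le_rfl
    · intro k hk
      by_contra h
      apply hk
      simp only [a]
      rw [dif_neg h]
    · rw [sub_add_cancel]

theorem t : TaskG1 → TaskG3 → TaskG5 := fun h1 h3 _ _ _ _ _ _ V R S hR hS hRS i hi =>
  g5 h1 h3 V R S hR hS hRS i hi

end Pool.Agent.H769R3.ES
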