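import Pool.Agent.H242R3.ES.StmtsK

/-! Project H242-ES: `TaskK10b`. -/

set_option autoImplicit false
set_option maxHeartbeats 4000000

open Finset
open scoped Classical

namespace Pool.Agent.H769R3.ES.K10b

open Pool.Agent.H242R3.ES

theorem univ_face {ι E : Type} [AddCommGroup E] [Module ℝ E] (V : ι → E) : Face V Set.univ :=
  ⟨0, fun _ => le_rfl, fun _ => by simp⟩

theorem vconn (hG2 : TaskG2) (hG5 : TaskG5) (hGV : GenV) {ι E : Type} [Fintype ι] [AddCommGroup E]
    [Module ℝ E] [FiniteDimensional ℝ E] (V : ι → E) (hv : ∀ i, Face V {i})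
    (v : ι) (M : Set ι) (hM : ∃ w ∈ M, w ≠ v ∧ Face V {v, w})
    (hcl : ∀ w u T, w ∈ M → w ≠ v → u ≠ v → Face V {v, w} → Face V {v, u} → Face V T → rk V T = 3 →
      v ∈ T → w ∈ T → u ∈ T → u ∈ M) (u : ι) (huv : u ≠ v) (hu : Face V {v, u}) : u ∈ M := by
  obtain ⟨lu, hlu0, hlu⟩ := hu
  obtain ⟨lv, hlv0, hlv⟩ := hv v
  have hlvv : lv (V v) = 0 := (hlv v).1 rfl
  have hluv : lu (V v) = 0 := (hlu v).1 (by simp)
  have hluu : lu (V u) = 0 := (hlu u).1 (by simp)
  have hpos : ∀ k, k ≠ v → 0 < lv (V k) := fun k hk =>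
    lt_of_le_of_ne (hlv0 k) (fun h => hk ((hlv k).2 h.symm))
  -- ranks
  have hV0 : ∀ i, V i ≠ 0 := by
    intro i h
    obtain ⟨j, hj⟩ : ∃ j, j ≠ i := by
      by_cases h1 : i = v
      · exact ⟨u, by rw [h1]; exact huv⟩
      · exact ⟨v, fun h2 => h1 h2.symm⟩
    obtain ⟨l, -, hl⟩ := hv j
    have h1 := (hl i).2 (by rw [h, map_zero])
    exact hj h1.symm
  have hrk1 : ∀ i, rk V {i} = 1 := by
    intro i
    rw [rk, Set.image_singleton]
    exact finrank_span_singleton (hV0 i)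
  have hrk2 : ∀ w, w ≠ v → Face V {v, w} → rk V {v, w} = 2 := by
    intro w hw hF
    have h1 : ({v} : Set ι) ⊂ {v, w} := by
      refine ⟨by simp, fun h => hw ?_⟩
      have := h (show w ∈ ({v, w} : Set ι) by simp)
      simpa using this
    have h2 := (hG2 ι E V {v} {v, w} (hv v) hF).2.1 h1
    rw [hrk1] at h2
    have h3 : rk V {v, w} ≤ 2 := by
      rw [rk, Set.image_pair]
      exact (finrank_span_le_card _).trans (by
        rw [Set.toFinset_card]
        exact (Fintype.card_le_of_injective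
          (fun x : ({V v, V w} : Set E) => (if (x : E) = V v then (0 : Fin 2) else 1)) (by
            rintro ⟨x, hx⟩ ⟨y, hy⟩ hxy
            simp only at hxy
            rcases hx with rfl | rfl <;> rcases hy with rfl | rfl <;> simp_all)).trans (by simp))
    omega
  -- the minimum
  obtain ⟨w, hwmem, hmin⟩ := Finset.exists_min_image
    (Finset.univ.filter (fun w => w ∈ M ∧ w ≠ v ∧ Face V {v, w}))
    (fun w => lu (V w) / lv (V w)) (by
      obtain ⟨w, h1, h2, h3⟩ := hM
      exact ⟨w, Finset.mem_filter.2 ⟨Finset.mem_univ _, h1, h2, h3⟩⟩)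
  obtain ⟨-, hwM, hwv, hwF⟩ := Finset.mem_filter.1 hwmem
  by_contra huM
  have hwu : w ≠ u := fun h => huM (h ▸ hwM)
  set c := lu (V w) / lv (V w) with hc
  have hluw : 0 < lu (V w) := by
    refine lt_of_le_of_ne (hlu0 w) (fun h => ?_)
    have := (hlu w).2 h.symm
    rcases this with h1 | h1
    · exact hwv h1
    · exact hwu h1
  have hc0 : 0 < c := div_pos hluw (hpos w hwv)
  have hcw : lu (V w) - c * lv (V w) = 0 := by
    rw [hc, div_mul_cancel₀ _ (hpos w hwv).ne']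
    ring
  -- the functional
  have hne : ({v, w} : Set ι) ⊂ Set.univ := by
    refine ⟨Set.subset_univ _, fun h => ?_⟩
    have := h (Set.mem_univ u)
    rcases this with h1 | h1
    · exact huv h1
    · exact hwu h1.symm
  let ψ : E →ₗ[ℝ] ℝ := lu - c • lv
  have hψ : ∀ x, ψ x = lu x - c * lv x := fun x => by
    simp only [ψ, LinearMap.sub_apply, LinearMap.smul_apply, smul_eq_mul]
  have hψv : ψ (V v) = 0 := by rw [hψ, hluv, hlvv]; ring
  have hψw : ψ (V w) = 0 := by rw [hψ]; exact hcw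
  have hψu : ψ (V u) < 0 := by
    rw [hψ, hluu]
    have := mul_pos hc0 (hpos u huv)
    linarith
  -- all neighbours of `v` in rank 3 faces containing `v, w` have `0 ≤ ψ`
  have hnb : ∀ T, Cov V {v, w} T → ∀ j ∈ T, j ≠ v → Face V {v, j} → 0 ≤ ψ (V j) := by
    intro T hT j hj hjv hjF
    have hrk : rk V T = 3 := by rw [hT.2.2.2, hrk2 w hwv hwF]
    have hjM : j ∈ M := hcl w j T hwM hwv hjv hwF hjF hT.2.1 hrk (hT.2.2.1.1 (by simp))
      (hT.2.2.1.1 (by simp)) hj
    have h1 := hmin j (Finset.mem_filter.2 ⟨Finset.mem_univ _, hjM, hjv, hjF⟩)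
    rw [le_div_iff₀ (hpos j hjv)] at h1
    rw [hψ]
    linarith
  have hT3 : ∀ T, Cov V {v, w} T → ∀ k ∈ T, 0 ≤ ψ (V k) := by
    intro T hT k hk
    obtain ⟨y, a, ha0, ha1, ha2⟩ := hGV ι E V hv v T hT.2.1 (hT.2.2.1.1 (by simp)) k hk
    rw [ha2, map_add, map_smul, hψv, smul_zero, zero_add, map_sum]
    refine Finset.sum_nonneg (fun j _ => ?_)
    rw [map_smul, smul_eq_mul]
    by_cases haj : a j = 0
    · rw [haj, zero_mul]
    · obtain ⟨h1, h2, h3⟩ := ha1 j haj
      exact mul_nonneg (ha0 j) (hnb T hT j h1 h2 h3)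
  obtain ⟨y, a, hy, ha0, ha1, ha2⟩ := hG5 ι E V {v, w} Set.univ hwF (univ_face V) hne u
    (Set.mem_univ u)
  have hψy : ψ y = 0 := by
    have : Submodule.span ℝ (V '' {v, w}) ≤ LinearMap.ker ψ := by
      rw [Submodule.span_le]
      rintro _ ⟨k, hk, rfl⟩
      rcases hk with rfl | hk
      · exact hψv
      · rw [Set.mem_singleton_iff] at hk
        rw [hk]
        exact hψw
    exact this hy
  have h1 : 0 ≤ ψ (V u) := by
    rw [ha2, map_add, hψy, zero_add, map_sum]
    refine Finset.sum_nonneg (fun j _ => ?_)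
    rw [map_smul, smul_eq_mul]
    by_cases haj : a j = 0
    · rw [haj, zero_mul]
    · obtain ⟨-, -, T, hT, -, hjT⟩ := ha1 j haj
      exact mul_nonneg (ha0 j) (hT3 T hT j hjT)
  linarith

theorem t : TaskK10b := fun hG2 hG5 hGV _ _ _ _ _ _ V hv v M hM hcl u huv hu =>
  vconn hG2 hG5 hGV V hv v M hM hcl u huv hu

end Pool.Agent.H769R3.ES.K10b
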